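import Pool.Agent.H42.PF.Coef

/-!
# The function of a leaf: twists and poles
-/

set_option autoImplicit false

open Polynomial Finset

namespace Pool.H42.PF

open Pool.Agent.GSP

/-! ### number theory of the sums of `± 1 / p` -/

/-- The difference of `al S T` and `al S T'`. -/
theorem al_sub {S T T' : Finset ℕ} (hT : T ⊆ S) (hT' : T' ⊆ S) :
    al S T - al S T' = ∑ p ∈ T \ T', (1 : ℚ) / p - ∑ p ∈ T' \ T, (1 : ℚ) / p := by
  unfold al
  have h1 : ∀ A : Finset ℕ, A ⊆ S → ∑ p ∈ S \ A, (1 : ℚ) / p = ∑ p ∈ S, (1 : ℚ) / p -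
      ∑ p ∈ A, (1 : ℚ) / p := fun A hA => by
    rw [Finset.sum_sdiff_eq_sub hA]
  have h2 : ∑ p ∈ T \ T', (1 : ℚ) / p = ∑ p ∈ T, (1 : ℚ) / p - ∑ p ∈ T ∩ T', (1 : ℚ) / p := by
    rw [← Finset.sdiff_inter_self_left, Finset.sum_sdiff_eq_sub Finset.inter_subset_left]
  have h3 : ∑ p ∈ T' \ T, (1 : ℚ) / p = ∑ p ∈ T', (1 : ℚ) / p - ∑ p ∈ T ∩ T', (1 : ℚ) / p := by
    rw [← Finset.sdiff_inter_self_left, Finset.sum_sdiff_eq_sub Finset.inter_subset_left,
      Finset.inter_comm]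
  rw [h1 T hT, h1 T' hT', h2, h3]
  ring

/-- If `m (al S T - al S T')` is an integer, all members of the symmetric difference divide `m`. -/
theorem dvd_of_int {S : Finset ℕ} (hS2 : ∀ p ∈ S, 2 ≤ p)
    (hS : ∀ p ∈ S, ∀ q ∈ S, p ≠ q → Nat.Coprime p q) {T T' : Finset ℕ} (hT : T ⊆ S)
    (hT' : T' ⊆ S) {m n : ℤ} (h : (m : ℚ) * (al S T - al S T') = n) {p : ℕ}
    (hp : p ∈ symmDiff T T') : (p : ℤ) ∣ m := by
  set U := symmDiff T T' with hU
  have hUS : U ⊆ S := by
    intro x hx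
    rcases Finset.mem_symmDiff.1 hx with h1 | h1
    · exact hT h1.1
    · exact hT' h1.1
  set M : ℕ := ∏ x ∈ U.erase p, x with hM
  have hpM : IsCoprime (p : ℤ) (M : ℤ) := by
    rw [Nat.isCoprime_iff_coprime, hM]
    refine Nat.Coprime.prod_right fun x hx => ?_
    exact hS p (hUS hp) x (hUS (Finset.mem_of_mem_erase hx)) (Finset.ne_of_mem_erase hx).symm
  -- the sum as a signed sum over the symmetric difference
  have h1 : al S T - al S T' = ∑ x ∈ U, (if x ∈ T then (1 : ℚ) else -1) / x := by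
    have hU' : U = (T \ T') ∪ (T' \ T) := by
      rw [hU]
      rfl
    rw [al_sub hT hT', hU', Finset.sum_union (by
      rw [Finset.disjoint_left]
      intro x hx hx'
      exact (Finset.mem_sdiff.1 hx).2 (Finset.mem_sdiff.1 hx').1), sub_eq_add_neg,
      ← Finset.sum_neg_distrib]
    congr 1
    · refine Finset.sum_congr rfl fun x hx => ?_
      rw [if_pos (Finset.mem_sdiff.1 hx).1]
    · refine Finset.sum_congr rfl fun x hx => ?_
      rw [if_neg (Finset.mem_sdiff.1 hx).2]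
      ring
  have hx0 : ∀ x ∈ U, (x : ℚ) ≠ 0 := fun x hx => by
    have := hS2 x (hUS hx)
    exact_mod_cast (show x ≠ 0 by omega)
  -- multiply by the product of the other members
  have h2 : ∃ e : ℤ, (M : ℚ) * ∑ x ∈ U.erase p, (if x ∈ T then (1 : ℚ) else -1) / x = e := by
    refine ⟨∑ x ∈ U.erase p, (if x ∈ T then (1 : ℤ) else -1) *
      ((∏ y ∈ (U.erase p).erase x, y : ℕ) : ℤ), ?_⟩
    rw [Finset.mul_sum]
    push_cast
    refine Finset.sum_congr rfl fun x hx => ?_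
    have h3 : (M : ℚ) = x * ((∏ y ∈ (U.erase p).erase x, y : ℕ) : ℚ) := by
      rw [hM, ← Finset.mul_prod_erase _ _ hx]
      push_cast
      rfl
    have h4 := hx0 x (Finset.mem_of_mem_erase hx)
    rw [h3]
    push_cast
    split_ifs <;> field_simp
  obtain ⟨e, he⟩ := h2
  have h3 : (m : ℚ) * M * (if p ∈ T then (1 : ℚ) else -1) = p * (M * n - m * e) := by
    have h4 := hx0 p hp
    rw [h1, ← Finset.add_sum_erase U _ hp] at h
    have h5 : (m : ℚ) * M * ((if p ∈ T then (1 : ℚ) else -1) / p) = M * n - m * e := by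
      rw [← h, ← he]
      ring
    rw [← h5]
    field_simp
  have h4 : m * M * (if p ∈ T then (1 : ℤ) else -1) = p * (M * n - m * e) := by
    have h5 : ((m * M * (if p ∈ T then (1 : ℤ) else -1) : ℤ) : ℚ) =
        ((p * (M * n - m * e) : ℤ) : ℚ) := by
      push_cast
      rw [← h3]
    exact_mod_cast h5
  have h5 : (p : ℤ) ∣ m * M := by
    split_ifs at h4
    · exact ⟨_, by rw [← h4]; ring⟩
    · exact ⟨-(M * n - m * e), by linear_combination -h4⟩
  exact hpM.dvd_of_dvd_mul_right h5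

/-- The exponentials for different `T` are different. -/
theorem exp_eq_iff {x y : ℚ} : Complex.exp (2 * Real.pi * Complex.I * x) =
    Complex.exp (2 * Real.pi * Complex.I * y) ↔ ∃ n : ℤ, x - y = n := by
  rw [Complex.exp_eq_exp_iff_exists_int]
  have h2 : (2 * Real.pi * Complex.I : ℂ) ≠ 0 := Complex.two_pi_I_ne_zero
  constructor
  · rintro ⟨n, hn⟩
    refine ⟨n, ?_⟩
    have h3 : (2 * Real.pi * Complex.I : ℂ) * (x - y) = (2 * Real.pi * Complex.I) * n := by
      linear_combination hn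
    have h4 := mul_left_cancel₀ h2 h3
    exact_mod_cast h4
  · rintro ⟨n, hn⟩
    refine ⟨n, ?_⟩
    have h3 : ((x : ℂ) - y) = n := by exact_mod_cast hn
    linear_combination (2 * Real.pi * Complex.I : ℂ) * h3

/-- `exp (2 π i (s al - k / 2))`. -/
noncomputable def ww (S : Finset ℕ) (k : ℕ) (s : ℤ) (T : Finset ℕ) : ℂ :=
  Complex.exp (2 * Real.pi * Complex.I * (s * (al S T : ℂ) - k / 2))

theorem ww_eq (S : Finset ℕ) (k : ℕ) (s : ℤ) (T : Finset ℕ) :
    ww S k s T = Complex.exp (2 * Real.pi * Complex.I * ((s * al S T - k / 2 : ℚ) : ℂ)) := by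
  unfold ww
  push_cast
  rfl

theorem ww_ne (S : Finset ℕ) (k : ℕ) (s : ℤ) (T : Finset ℕ) : ww S k s T ≠ 0 :=
  Complex.exp_ne_zero _

theorem ww_eq_iff {S : Finset ℕ} {k : ℕ} {s s' : ℤ} {T T' : Finset ℕ} :
    ww S k s T = ww S k s' T' ↔ ∃ n : ℤ, (s : ℚ) * al S T - s' * al S T' = n := by
  rw [ww_eq, ww_eq, exp_eq_iff]
  constructor
  · rintro ⟨n, hn⟩
    exact ⟨n, by linarith⟩
  · rintro ⟨n, hn⟩
    exact ⟨n, by linarith⟩

/-- Different sets have different exponentials. -/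
theorem ww_inj {S : Finset ℕ} (hS2 : ∀ p ∈ S, 2 ≤ p)
    (hS : ∀ p ∈ S, ∀ q ∈ S, p ≠ q → Nat.Coprime p q) {k : ℕ} {s : ℤ}
    (hs : ∀ p ∈ S, IsCoprime s p) {T T' : Finset ℕ} (hT : T ⊆ S) (hT' : T' ⊆ S)
    (h : ww S k s T = ww S k s T') : T = T' := by
  obtain ⟨n, hn⟩ := ww_eq_iff.1 h
  by_contra hne
  have h1 : (symmDiff T T').Nonempty := by
    rw [Finset.nonempty_iff_ne_empty, Ne, ← Finset.bot_eq_empty, symmDiff_eq_bot]
    exact hne
  obtain ⟨p, hp⟩ := h1
  have hpS : p ∈ S := by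
    rcases Finset.mem_symmDiff.1 hp with h1 | h1
    · exact hT h1.1
    · exact hT' h1.1
  have h2 : (p : ℤ) ∣ s := dvd_of_int hS2 hS hT hT' (m := s) (n := n) (by linarith) hp
  have h3 := hs p hpS
  have h4 : IsUnit (p : ℤ) := h3.isUnit_of_dvd' h2 dvd_rfl
  have h5 := hS2 p hpS
  rw [Int.isUnit_iff] at h4
  omega

/-! ### the twist -/

/-- The action of the twist by `1 + t W` on the exponentials. -/
theorem ww_twist {S : Finset ℕ} (hS2 : ∀ p ∈ S, 2 ≤ p) {k : ℕ} {s W t c : ℤ} {l q : ℕ}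
    (hl : 0 < l) (hq : q ∈ S) (hW : ∀ p ∈ S, p ≠ q → (2 * p : ℤ) ∣ W) (hWq : W * l = 2 * q * c)
    {T : Finset ℕ} (hT : T ⊆ S) :
    ww S k ((1 + t * W) * s) T = ww S k s T *
      Complex.exp (2 * Real.pi * Complex.I *
        (((if q ∈ T then (1 : ℚ) else -1) * (s * t * c / l) : ℚ) : ℂ)) := by
  rw [ww_eq, ww_eq, ← Complex.exp_add, ← mul_add, ← Rat.cast_add, exp_eq_iff]
  -- `W al` is an integer up to `± c / l`
  have hl0 : (l : ℚ) ≠ 0 := by exact_mod_cast hl.ne'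
  have hp0 : ∀ p ∈ S, (p : ℚ) ≠ 0 := fun p hp => by
    have := hS2 p hp
    exact_mod_cast (show p ≠ 0 by omega)
  have h1 : al S T = ∑ p ∈ S, (if p ∈ T then (1 : ℚ) else -1) / (2 * p) := by
    unfold al
    have h2 : ∑ p ∈ S, (if p ∈ T then (1 : ℚ) else -1) / (2 * p) =
        ∑ p ∈ S \ T, (if p ∈ T then (1 : ℚ) else -1) / (2 * p) +
          ∑ p ∈ T, (if p ∈ T then (1 : ℚ) else -1) / (2 * p) :=
      (Finset.sum_sdiff hT).symm
    rw [h2, sub_div, Finset.sum_div, Finset.sum_div]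
    have h3 : ∀ p ∈ T, (if p ∈ T then (1 : ℚ) else -1) / (2 * p) = 1 / p / 2 := by
      intro p hp
      rw [if_pos hp]
      have := hp0 p (hT hp)
      field_simp
    have h4 : ∀ p ∈ S \ T, (if p ∈ T then (1 : ℚ) else -1) / (2 * p) = -(1 / p / 2) := by
      intro p hp
      rw [if_neg (Finset.mem_sdiff.1 hp).2]
      have := hp0 p (Finset.mem_sdiff.1 hp).1
      field_simp
    rw [Finset.sum_congr rfl h3, Finset.sum_congr rfl h4, Finset.sum_neg_distrib]
    ring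
  have h2 : ∃ e : ℤ, (W : ℚ) * al S T = e + (if q ∈ T then (1 : ℚ) else -1) * (c / l) := by
    choose! d hd using hW
    refine ⟨∑ p ∈ S.erase q, (if p ∈ T then (1 : ℤ) else -1) * d p, ?_⟩
    rw [h1, ← Finset.add_sum_erase S _ hq, mul_add, Finset.mul_sum]
    push_cast
    rw [add_comm]
    congr 1
    · refine Finset.sum_congr rfl fun p hp => ?_
      have h3 := hd p (Finset.mem_of_mem_erase hp) (Finset.ne_of_mem_erase hp)
      have h4 : (W : ℚ) = 2 * p * d p := by exact_mod_cast h3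
      have h5 := hp0 p (Finset.mem_of_mem_erase hp)
      rw [h4]
      split_ifs <;> field_simp
    · have h4 : (W : ℚ) * l = 2 * q * c := by exact_mod_cast hWq
      have h5 := hp0 q hq
      have h6 : (W : ℚ) / (2 * q) = c / l := by
        rw [div_eq_div_iff (mul_ne_zero two_ne_zero h5) hl0]
        linear_combination h4
      split_ifs
      · rw [one_mul, ← h6]
        ring
      · rw [neg_one_mul, ← h6]
        ring
  obtain ⟨e, he⟩ := h2
  refine ⟨t * s * e, ?_⟩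
  push_cast
  linear_combination (t * s : ℚ) * he

/-- The twist moves the argument of the function of the leaf. -/
theorem gg_twist {S : Finset ℕ} (hS2 : ∀ p ∈ S, 2 ≤ p) {k i r : ℕ} {s W t c : ℤ} {l q : ℕ}
    (hl : 0 < l) (hq : q ∈ S) (hW : ∀ p ∈ S, p ≠ q → (2 * p : ℤ) ∣ W) (hWq : W * l = 2 * q * c)
    (z : ℂ) : gg S k i r q ((1 + t * W) * s) z =
      gg S k i r q s (Complex.exp (2 * Real.pi * Complex.I * ((s * t * c / l : ℚ) : ℂ)) * z) := by
  unfold gg cs
  refine Finset.sum_congr rfl fun T hT => ?_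
  rw [Finset.mem_filter, Finset.mem_powerset] at hT
  have h1 := ww_twist (k := k) (s := s) (t := t) hS2 hl hq hW hWq hT.1
  rw [if_pos hT.2, one_mul] at h1
  have h2 : Complex.exp (2 * Real.pi * Complex.I *
      ((((1 + t * W) * s : ℤ) : ℂ) * (al S T : ℂ) - k / 2)) * z =
      Complex.exp (2 * Real.pi * Complex.I * (s * (al S T : ℂ) - k / 2)) *
        (Complex.exp (2 * Real.pi * Complex.I * ((s * t * c / l : ℚ) : ℂ)) * z) := by
    rw [← mul_assoc]
    congr 1
  rw [h2]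

/-- The sets `T` which give the poles. -/
noncomputable def TT (S : Finset ℕ) (k i q : ℕ) : Finset (Finset ℕ) :=
  S.powerset.filter fun T => q ∈ T ∧ tc k i (al S T) ≠ 0

theorem mem_TT {S : Finset ℕ} {k i q : ℕ} {T : Finset ℕ} :
    T ∈ TT S k i q ↔ T ⊆ S ∧ q ∈ T ∧ tc k i (al S T) ≠ 0 := by
  unfold TT
  rw [Finset.mem_filter, Finset.mem_powerset]

/-- The poles. -/
noncomputable def poles (S : Finset ℕ) (k i q : ℕ) (s : ℤ) : Finset ℂ :=
  (TT S k i q).image fun T => (ww S k s T)⁻¹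

theorem card_poles {S : Finset ℕ} (hS2 : ∀ p ∈ S, 2 ≤ p)
    (hS : ∀ p ∈ S, ∀ q ∈ S, p ≠ q → Nat.Coprime p q) {k i q : ℕ} {s : ℤ}
    (hs : ∀ p ∈ S, IsCoprime s p) : (poles S k i q s).card = (TT S k i q).card := by
  refine Finset.card_image_of_injOn ?_
  intro T hT T' hT' h
  have h1 := mem_TT.1 hT
  have h2 := mem_TT.1 hT'
  exact ww_inj hS2 hS hs h1.1 h2.1 (inv_injective h)

/-- The function of a leaf has the poles `poles`, of order `r`. -/
theorem gg_isRF {S : Finset ℕ} (hS2 : ∀ p ∈ S, 2 ≤ p)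
    (hS : ∀ p ∈ S, ∀ q ∈ S, p ≠ q → Nat.Coprime p q) {k i r q : ℕ} (hr : 1 ≤ r) {s : ℤ}
    (hs : ∀ p ∈ S, IsCoprime s p) : ∃ b : ℂ → ℂ, IsRF (gg S k i r q s) r (poles S k i q s) b ∧
      ∀ T ∈ TT S k i q, b (ww S k s T)⁻¹ =
        (-1) ^ (S \ T).card * (tc k i (al S T) : ℂ) * (2 * Complex.I) ^ r := by
  have hinj : Set.InjOn (ww S k s) (TT S k i q) := by
    intro T hT T' hT' h
    exact ww_inj hS2 hS hs (mem_TT.1 hT).1 (mem_TT.1 hT').1 h
  obtain ⟨b, hb⟩ := exists_b (β := fun T => (-1) ^ (S \ T).card * (tc k i (al S T) : ℂ)) hinj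
    ((2 * Complex.I) ^ r)
  refine ⟨b, ?_, hb⟩
  have h1 := cs_isRF (β := fun T => (-1) ^ (S \ T).card * (tc k i (al S T) : ℂ)) (cotP_natDegree r)
    (by rw [cotP_coeff hr]; exact one_ne_zero) hr (fun T _ => ww_ne S k s T) hinj (fun T hT => by
      have h2 := (mem_TT.1 hT).2.2
      exact mul_ne_zero (pow_ne_zero _ (by norm_num)) (by exact_mod_cast h2)) (b := b)
    (fun T hT => by rw [cotP_coeff hr, one_mul]; exact hb T hT)
  refine h1.congr (fun z _ _ => ?_) fun _ _ => rfl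
  unfold gg cs
  have hsub : TT S k i q ⊆ S.powerset.filter fun T => q ∈ T := by
    intro T hT
    have h2 := mem_TT.1 hT
    exact Finset.mem_filter.2 ⟨Finset.mem_powerset.2 h2.1, h2.2.1⟩
  refine (Finset.sum_subset hsub fun T hT hT' => ?_).symm
  rw [Finset.mem_filter, Finset.mem_powerset] at hT
  have h3 : tc k i (al S T) = 0 := by
    by_contra h4
    exact hT' (mem_TT.2 ⟨hT.1, hT.2, h4⟩)
  simp only [h3, Rat.cast_zero, mul_zero, zero_mul]

end Pool.H42.PF
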