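import Pool.Agent.H42.PF.Basic

/-!
# The substitution of `z ^ n` and the comparison of `g (z ^ n)` and `g' (z ^ n')`
-/

set_option autoImplicit false

open Polynomial Finset

namespace Pool.H42.PF

/-- The `n`-th roots of the members of `W`. -/
noncomputable def rt (n : ℕ) (W : Finset ℂ) : Finset ℂ := W.biUnion fun x => nthRootsFinset n x

theorem mem_rt {n : ℕ} (hn : 1 ≤ n) {W : Finset ℂ} {z : ℂ} : z ∈ rt n W ↔ z ^ n ∈ W := by
  unfold rt
  rw [Finset.mem_biUnion]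
  constructor
  · rintro ⟨x, hx, hz⟩
    rw [mem_nthRootsFinset hn] at hz
    rwa [hz]
  · intro h
    exact ⟨z ^ n, h, (mem_nthRootsFinset hn _).2 rfl⟩

private theorem prod_nth {n : ℕ} (hn : 1 ≤ n) {x : ℂ} (hx : x ≠ 0) :
    ∏ y ∈ nthRootsFinset n x, (X - C y) = X ^ n - C x := by
  have h1 : (X ^ n - C x : ℂ[X]).Monic := monic_X_pow_sub_C x (by omega)
  have h2 := (IsAlgClosed.splits (X ^ n - C x : ℂ[X])).eq_prod_roots_of_monic h1
  have h3 : (X ^ n - C x : ℂ[X]).roots.Nodup :=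
    nodup_roots (separable_X_pow_sub_C x (by exact_mod_cast (show n ≠ 0 by omega)) hx)
  rw [h2]
  rw [nthRootsFinset_def]
  unfold nthRoots
  rw [Finset.prod, Multiset.toFinset_val, Multiset.dedup_eq_self.2 h3]

private theorem den_rt {n : ℕ} (hn : 1 ≤ n) (r : ℕ) {W : Finset ℂ} (h0 : (0 : ℂ) ∉ W) :
    den r (rt n W) = (den r W).comp (X ^ n) := by
  unfold den rt
  rw [Finset.prod_biUnion]
  · rw [Polynomial.prod_comp]
    refine Finset.prod_congr rfl fun x hx => ?_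
    rw [Finset.prod_pow, prod_nth hn (fun h => h0 (h ▸ hx)), Polynomial.pow_comp]
    simp
  · intro x _ y _ hxy
    rw [Function.onFun, Finset.disjoint_left]
    intro z hz hz'
    rw [mem_nthRootsFinset hn] at hz hz'
    exact hxy (hz.symm.trans hz')

theorem card_rt {n : ℕ} (hn : 1 ≤ n) {W : Finset ℂ} (h0 : (0 : ℂ) ∉ W) :
    (rt n W).card = n * W.card := by
  have h1 := congrArg Polynomial.natDegree (den_rt hn 1 h0)
  rw [Polynomial.natDegree_comp, den_natDegree, den_natDegree, Polynomial.natDegree_X_pow] at h1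
  rw [one_mul, one_mul] at h1
  rw [h1, mul_comm]

private theorem den_erase_rt {n : ℕ} (hn : 1 ≤ n) (r : ℕ) {W : Finset ℂ} (h0 : (0 : ℂ) ∉ W)
    {y : ℂ} (hy : y ∈ rt n W) : (den r ((rt n W).erase y)).eval y =
      (n * y ^ (n - 1)) ^ r * (den r (W.erase (y ^ n))).eval (y ^ n) := by
  have hyn : y ^ n ∈ W := (mem_rt hn).1 hy
  set S : ℂ[X] := ∑ i ∈ Finset.range n, X ^ i * C y ^ (n - 1 - i) with hS
  have h1 : (X ^ n - C (y ^ n) : ℂ[X]) = (X - C y) * S := by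
    rw [hS, mul_comm, Polynomial.C_pow, geom_sum₂_mul]
  have h2 : S.eval y = n * y ^ (n - 1) := by
    rw [hS, Polynomial.eval_finsetSum]
    have : ∀ i ∈ Finset.range n, (X ^ i * C y ^ (n - 1 - i) : ℂ[X]).eval y = y ^ (n - 1) := by
      intro i hi
      rw [Finset.mem_range] at hi
      rw [Polynomial.eval_mul, Polynomial.eval_pow, Polynomial.eval_pow, Polynomial.eval_X,
        Polynomial.eval_C, ← pow_add]
      congr 1
      omega
    rw [Finset.sum_congr rfl this, Finset.sum_const, Finset.card_range, nsmul_eq_mul]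
  have h3 : (X - C y) ^ r * den r ((rt n W).erase y) =
      (X - C y) ^ r * (S ^ r * (den r (W.erase (y ^ n))).comp (X ^ n)) := by
    rw [← den_erase hy, den_rt hn r h0, den_erase hyn, Polynomial.mul_comp, Polynomial.pow_comp,
      Polynomial.sub_comp, Polynomial.X_comp, Polynomial.C_comp, h1, mul_pow]
    ring
  have h4 := mul_left_cancel₀ (pow_ne_zero r (X_sub_C_ne_zero y)) h3
  rw [h4, Polynomial.eval_mul, Polynomial.eval_pow, h2, Polynomial.eval_comp, Polynomial.eval_pow,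
    Polynomial.eval_X]

/-- The substitution of `z ^ n`. -/
theorem IsQ.pow {g : ℂ → ℂ} {r : ℕ} {W : Finset ℂ} {b : ℂ → ℂ} (h : IsQ g r W b) {n : ℕ}
    (hn : 1 ≤ n) : IsQ (fun z => g (z ^ n)) r (rt n W) fun y => b (y ^ n) / n ^ r := by
  obtain ⟨h0, P, hP, hP1, hP2⟩ := h
  have hn0 : (n : ℂ) ≠ 0 := by exact_mod_cast (show n ≠ 0 by omega)
  refine ⟨fun h => h0 ?_, P.comp (X ^ n), ?_, fun y hy => ?_, fun z hz hzW => ?_⟩
  · have := (mem_rt hn).1 h
    rwa [zero_pow (by omega)] at this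
  · rw [Polynomial.natDegree_comp, Polynomial.natDegree_X_pow, card_rt hn h0]
    calc P.natDegree * n ≤ r * W.card * n := Nat.mul_le_mul_right _ hP
      _ = r * (n * W.card) := by ring
  · have hyn := (mem_rt hn).1 hy
    rw [Polynomial.eval_comp, Polynomial.eval_pow, Polynomial.eval_X, hP1 _ hyn,
      den_erase_rt hn r h0 hy, mul_pow]
    have e : (y ^ n) ^ r = y ^ r * (y ^ (n - 1)) ^ r := by
      rw [← mul_pow, ← pow_succ']
      congr 2
      omega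
    rw [e]
    field_simp
  · rw [den_rt hn r h0, Polynomial.eval_comp, Polynomial.eval_comp, Polynomial.eval_pow,
      Polynomial.eval_X]
    exact hP2 _ (pow_ne_zero _ hz) fun h => hzW ((mem_rt hn).2 h)

theorem IsRF.pow {g : ℂ → ℂ} {r : ℕ} {W : Finset ℂ} {b : ℂ → ℂ} (h : IsRF g r W b) {n : ℕ}
    (hn : 1 ≤ n) : IsRF (fun z => g (z ^ n)) r (rt n W) fun y => b (y ^ n) / n ^ r :=
  ⟨fun y hy => div_ne_zero (h.1 _ ((mem_rt hn).1 hy))
    (pow_ne_zero _ (by exact_mod_cast (show n ≠ 0 by omega))), h.2.pow hn⟩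

/-- The comparison of `g (z ^ n)` and `g' (z ^ n')`. -/
theorem IsRF.decode {g g' : ℂ → ℂ} {r r' : ℕ} {W W' : Finset ℂ} {b b' : ℂ → ℂ}
    (h : IsRF g r W b) (h' : IsRF g' r' W' b') (hr : 1 ≤ r) (hr' : 1 ≤ r') {n n' : ℕ} (hn : 1 ≤ n)
    (hn' : 1 ≤ n') (hW : W.Nonempty) {c c' : ℂ} (hc : c ≠ 0) (hc' : c' ≠ 0) {Z : Finset ℂ}
    (hcard : 2 * (r * (n * W.card) + r' * (n' * W'.card)) < Z.card)
    (hZ : ∀ z ∈ Z, z ≠ 0 ∧ z ^ n ∉ W ∧ z ^ n' ∉ W' ∧
      c * g (z ^ n) ^ 2 = c' * g' (z ^ n') ^ 2) :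
    r = r' ∧ n * W.card = n' * W'.card ∧ (∀ z, z ^ n ∈ W ↔ z ^ n' ∈ W') ∧
      ∀ z, z ^ n ∈ W → c * (b (z ^ n) / n ^ r) ^ 2 = c' * (b' (z ^ n') / n' ^ r') ^ 2 := by
  obtain ⟨h1, h2, h3⟩ := (h.pow hn).compare (h'.pow hn') hr hr' hc hc' (Z := Z) (by
    rw [card_rt hn h.2.1, card_rt hn' h'.2.1]
    exact hcard) fun z hz => by
    obtain ⟨a1, a2, a3, a4⟩ := hZ z hz
    exact ⟨a1, fun h => a2 ((mem_rt hn).1 h), fun h => a3 ((mem_rt hn').1 h), a4⟩
  have hne : (rt n W).Nonempty := by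
    rw [← Finset.card_pos, card_rt hn h.2.1]
    exact Nat.mul_pos (by omega) (Finset.card_pos.2 hW)
  refine ⟨h2 hne, ?_, fun z => ?_, fun z hz => h3 z ((mem_rt hn).2 hz)⟩
  · rw [← card_rt hn h.2.1, ← card_rt hn' h'.2.1, h1]
  · rw [← mem_rt hn, ← mem_rt hn', h1]

end Pool.H42.PF
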