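import Pool.Agent.H42.PF.Basic
import Pool.Agent.GSP.Defs

/-!
# Sums of polynomials in cotangents are rational functions with poles of the same order
-/

set_option autoImplicit false

open Polynomial Finset

namespace Pool.H42.PF

/-- `(X - 1) ^ r p (I (X + 1) / (X - 1))`. -/
noncomputable def nr (p : ℂ[X]) (r : ℕ) : ℂ[X] :=
  ∑ i ∈ Finset.range (r + 1), C (p.coeff i) * (C Complex.I * (X + 1)) ^ i * (X - 1) ^ (r - i)

theorem nr_eval {p : ℂ[X]} {r : ℕ} (hp : p.natDegree ≤ r) {u : ℂ} (hu : u ≠ 1) :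
    (nr p r).eval u = (u - 1) ^ r * p.eval (Complex.I * (u + 1) / (u - 1)) := by
  have h1 : u - 1 ≠ 0 := sub_ne_zero.2 hu
  rw [Polynomial.eval_eq_sum_range' (Nat.lt_succ_of_le hp), nr, Polynomial.eval_finsetSum,
    Finset.mul_sum]
  refine Finset.sum_congr rfl fun i hi => ?_
  rw [Finset.mem_range] at hi
  simp only [Polynomial.eval_mul, Polynomial.eval_pow, Polynomial.eval_C, Polynomial.eval_sub,
    Polynomial.eval_add, Polynomial.eval_X, Polynomial.eval_one]
  have h2 : (u - 1) ^ r = (u - 1) ^ (r - i) * (u - 1) ^ i := by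
    rw [← pow_add]
    congr 1
    omega
  rw [h2, div_pow]
  field_simp

theorem nr_one (p : ℂ[X]) (r : ℕ) : (nr p r).eval 1 = p.coeff r * (2 * Complex.I) ^ r := by
  rw [nr, Polynomial.eval_finsetSum, Finset.sum_range_succ]
  have h1 : ∑ i ∈ Finset.range r,
      (C (p.coeff i) * (C Complex.I * (X + 1)) ^ i * (X - 1) ^ (r - i) : ℂ[X]).eval 1 = 0 := by
    refine Finset.sum_eq_zero fun i hi => ?_
    rw [Finset.mem_range] at hi
    simp only [Polynomial.eval_mul, Polynomial.eval_pow, Polynomial.eval_sub, Polynomial.eval_X,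
      Polynomial.eval_one, sub_self]
    rw [zero_pow (by omega), mul_zero]
  rw [h1, zero_add]
  simp only [Polynomial.eval_mul, Polynomial.eval_pow, Polynomial.eval_C,
    Polynomial.eval_add, Polynomial.eval_X, Polynomial.eval_one, Nat.sub_self, pow_zero,
    mul_one]
  ring

theorem natDegree_nr (p : ℂ[X]) (r : ℕ) : (nr p r).natDegree ≤ r := by
  refine Polynomial.natDegree_sum_le_of_forall_le _ _ fun i hi => ?_
  rw [Finset.mem_range] at hi
  have e1 := Polynomial.natDegree_mul_le (p := C (p.coeff i) * (C Complex.I * (X + 1)) ^ i)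
    (q := (X - 1 : ℂ[X]) ^ (r - i))
  have e2 := Polynomial.natDegree_C_mul_le (p.coeff i) ((C Complex.I * (X + 1)) ^ i)
  have e3 := Polynomial.natDegree_pow_le (p := (C Complex.I * (X + 1) : ℂ[X])) (n := i)
  have e4 := Polynomial.natDegree_C_mul_le Complex.I (X + 1 : ℂ[X])
  have e5 := Polynomial.natDegree_pow_le (p := (X - 1 : ℂ[X])) (n := r - i)
  have e6 : (X + 1 : ℂ[X]).natDegree ≤ 1 := by
    simpa using (Polynomial.natDegree_X_add_C (1 : ℂ)).le
  have e7 : (X - 1 : ℂ[X]).natDegree ≤ 1 := by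
    simpa using (Polynomial.natDegree_X_sub_C (1 : ℂ)).le
  have e8 : i * (C Complex.I * (X + 1) : ℂ[X]).natDegree ≤ i := by
    calc i * (C Complex.I * (X + 1) : ℂ[X]).natDegree ≤ i * 1 :=
          Nat.mul_le_mul_left _ (e4.trans e6)
      _ = i := mul_one i
  have e9 : (r - i) * (X - 1 : ℂ[X]).natDegree ≤ r - i := by
    calc (r - i) * (X - 1 : ℂ[X]).natDegree ≤ (r - i) * 1 := Nat.mul_le_mul_left _ e7
      _ = r - i := mul_one _
  omega

/-- The sum of `β j * p (I (w j * z + 1) / (w j * z - 1))`. -/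
noncomputable def cs {ι : Type} (p : ℂ[X]) (J : Finset ι) (w β : ι → ℂ) (z : ℂ) : ℂ :=
  ∑ j ∈ J, β j * p.eval (Complex.I * (w j * z + 1) / (w j * z - 1))

variable {ι : Type} {p : ℂ[X]} {r : ℕ} {J : Finset ι} {w β : ι → ℂ}

theorem cs_isQ (hp : p.natDegree ≤ r) (hr : 1 ≤ r) (hw : ∀ j ∈ J, w j ≠ 0)
    (hinj : Set.InjOn w J) {b : ℂ → ℂ}
    (hb : ∀ j ∈ J, b (w j)⁻¹ = β j * (p.coeff r * (2 * Complex.I) ^ r)) :
    IsQ (cs p J w β) r (J.image fun j => (w j)⁻¹) b := by
  classical
  have hinj' : Set.InjOn (fun j => (w j)⁻¹) J := by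
    intro i hi j hj hij
    exact hinj hi hj (inv_injective hij)
  set W := J.image fun j => (w j)⁻¹ with hW
  have hmem : ∀ j ∈ J, (w j)⁻¹ ∈ W := fun j hj => Finset.mem_image_of_mem _ hj
  have hcard : W.card = J.card := Finset.card_image_of_injOn hinj'
  refine ⟨?_, ∑ j ∈ J, C (β j * (w j)⁻¹ ^ r) * (nr p r).comp (C (w j) * X) *
    den r (W.erase (w j)⁻¹), ?_, ?_, ?_⟩
  · intro h
    obtain ⟨j, hj, h1⟩ := Finset.mem_image.1 h
    exact inv_ne_zero (hw j hj) h1
  · refine Polynomial.natDegree_sum_le_of_forall_le _ _ fun j hj => ?_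
    have e1 := Polynomial.natDegree_mul_le (p := C (β j * (w j)⁻¹ ^ r) *
      (nr p r).comp (C (w j) * X)) (q := den r (W.erase (w j)⁻¹))
    have e2 := Polynomial.natDegree_C_mul_le (β j * (w j)⁻¹ ^ r) ((nr p r).comp (C (w j) * X))
    have e3 := Polynomial.natDegree_comp_le (p := nr p r) (q := C (w j) * X)
    have e4 := natDegree_nr p r
    have e5 := Polynomial.natDegree_C_mul_le (w j) (X : ℂ[X])
    rw [Polynomial.natDegree_X] at e5
    rw [den_natDegree, Finset.card_erase_of_mem (hmem j hj)] at e1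
    have e6 : (nr p r).natDegree * (C (w j) * X : ℂ[X]).natDegree ≤ r := by
      calc (nr p r).natDegree * (C (w j) * X : ℂ[X]).natDegree ≤ r * 1 := Nat.mul_le_mul e4 e5
        _ = r := mul_one r
    have e7 : r * (W.card - 1) + r = r * W.card := by
      have : 1 ≤ W.card := Finset.card_pos.2 ⟨_, hmem j hj⟩
      obtain ⟨m, hm⟩ := Nat.exists_eq_add_of_le this
      rw [hm]
      have : 1 + m - 1 = m := by omega
      rw [this]
      ring
    omega
  · intro x hx
    obtain ⟨j, hj, rfl⟩ := Finset.mem_image.1 hx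
    rw [Polynomial.eval_finsetSum, Finset.sum_eq_single_of_mem j hj]
    · rw [Polynomial.eval_mul, Polynomial.eval_mul, Polynomial.eval_C, Polynomial.eval_comp,
        Polynomial.eval_mul, Polynomial.eval_C, Polynomial.eval_X, mul_inv_cancel₀ (hw j hj),
        nr_one, hb j hj]
      ring
    · intro i hi hij
      rw [Polynomial.eval_mul, den_eval_zero hr, mul_zero]
      exact Finset.mem_erase.2 ⟨fun h => hij (hinj' hi hj h.symm), hmem j hj⟩
  · intro z hz hzW
    rw [Polynomial.eval_finsetSum, cs, Finset.sum_mul]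
    refine Finset.sum_congr rfl fun j hj => ?_
    have h1 : w j * z ≠ 1 := by
      intro h
      apply hzW
      have : z = (w j)⁻¹ := eq_inv_of_mul_eq_one_right h
      rw [this]
      exact hmem j hj
    rw [Polynomial.eval_mul, Polynomial.eval_mul, Polynomial.eval_C, Polynomial.eval_comp,
      Polynomial.eval_mul, Polynomial.eval_C, Polynomial.eval_X, nr_eval hp h1,
      den_erase (hmem j hj), Polynomial.eval_mul, Polynomial.eval_pow, Polynomial.eval_sub,
      Polynomial.eval_X, Polynomial.eval_C]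
    have h2 : (z - (w j)⁻¹) ^ r = (w j)⁻¹ ^ r * (w j * z - 1) ^ r := by
      rw [← mul_pow]
      congr 1
      have := hw j hj
      field_simp
    rw [h2]
    ring

theorem cs_isRF (hp : p.natDegree ≤ r) (hpr : p.coeff r ≠ 0) (hr : 1 ≤ r)
    (hw : ∀ j ∈ J, w j ≠ 0) (hinj : Set.InjOn w J) (hβ : ∀ j ∈ J, β j ≠ 0) {b : ℂ → ℂ}
    (hb : ∀ j ∈ J, b (w j)⁻¹ = β j * (p.coeff r * (2 * Complex.I) ^ r)) :
    IsRF (cs p J w β) r (J.image fun j => (w j)⁻¹) b := by
  refine ⟨fun x hx => ?_, cs_isQ hp hr hw hinj hb⟩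
  obtain ⟨j, hj, rfl⟩ := Finset.mem_image.1 hx
  rw [hb j hj]
  exact mul_ne_zero (hβ j hj) (mul_ne_zero hpr
    (pow_ne_zero _ (mul_ne_zero two_ne_zero Complex.I_ne_zero)))

/-- There is a function with the values `β j * c` at `(w j)⁻¹`. -/
theorem exists_b (hinj : Set.InjOn w J) (c : ℂ) : ∃ b : ℂ → ℂ, ∀ j ∈ J, b (w j)⁻¹ = β j * c := by
  classical
  refine ⟨fun x => ∑ j ∈ J, if (w j)⁻¹ = x then β j * c else 0, fun j hj => ?_⟩
  show ∑ i ∈ J, (if (w i)⁻¹ = (w j)⁻¹ then β i * c else 0) = β j * c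
  rw [Finset.sum_eq_single_of_mem j hj]
  · rw [if_pos rfl]
  · intro i hi hij
    rw [if_neg]
    intro h
    exact hij (hinj hi hj (inv_injective h))

/-- The value at `z⁻¹`. -/
theorem cs_inv (hp : ∀ x, p.eval (-x) = (-1) ^ r * p.eval x) (hw : ∀ j ∈ J, w j ≠ 0) {z : ℂ}
    (hz : z ≠ 0) : cs p J w β z⁻¹ = (-1) ^ r * cs p J (fun j => (w j)⁻¹) β z := by
  unfold cs
  rw [Finset.mul_sum]
  refine Finset.sum_congr rfl fun j hj => ?_
  have h1 := hw j hj
  have h2 : Complex.I * (w j * z⁻¹ + 1) / (w j * z⁻¹ - 1) =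
      -(Complex.I * ((w j)⁻¹ * z + 1) / ((w j)⁻¹ * z - 1)) := by
    have e1 : w j * z⁻¹ + 1 = (w j * z⁻¹) * ((w j)⁻¹ * z + 1) := by
      field_simp
      ring
    have e2 : w j * z⁻¹ - 1 = -((w j * z⁻¹) * ((w j)⁻¹ * z - 1)) := by
      field_simp
      ring
    have h3 : w j * z⁻¹ ≠ 0 := mul_ne_zero h1 (inv_ne_zero hz)
    rw [e1, e2, div_neg, ← mul_assoc, mul_comm Complex.I, mul_assoc, mul_div_mul_left _ _ h3]
  rw [h2, hp]
  ring

/-! ### the cotangent -/

theorem ct_eq (x : ℝ) : ((Agent.GSP.ct x : ℝ) : ℂ) =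
    Complex.I * (Complex.exp (2 * Real.pi * Complex.I * x) + 1) /
      (Complex.exp (2 * Real.pi * Complex.I * x) - 1) := by
  set u : ℂ := Complex.exp (Real.pi * x * Complex.I) with hu
  have hu0 : u ≠ 0 := Complex.exp_ne_zero _
  have h6 : Complex.exp (2 * Real.pi * Complex.I * x) = u ^ 2 := by
    rw [hu, ← Complex.exp_nat_mul]
    congr 1
    push_cast
    ring
  have h7 : Complex.exp (-(Real.pi * x) * Complex.I) = u⁻¹ := by
    rw [hu, ← Complex.exp_neg]
    congr 1
    ring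
  unfold Agent.GSP.ct
  rw [Complex.ofReal_div, Complex.ofReal_cos, Complex.ofReal_sin, Complex.ofReal_mul,
    Complex.cos, Complex.sin, h7, ← hu, h6]
  by_cases h : u ^ 2 = 1
  · have h8 : u⁻¹ - u = 0 := by
      field_simp
      linear_combination -h
    rw [h8, h]
    simp
  · have h5 : u ^ 2 - 1 ≠ 0 := sub_ne_zero.2 h
    have h8 : u⁻¹ - u ≠ 0 := by
      intro h
      apply h5
      field_simp at h
      linear_combination -h
    rw [div_eq_div_iff (by
      refine div_ne_zero (mul_ne_zero h8 Complex.I_ne_zero) two_ne_zero) h5]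
    have h9 : Complex.I * Complex.I = -1 := Complex.I_mul_I
    field_simp
    linear_combination (u ^ 4 - 1) * h9

private theorem cotP_facts : ∀ r : ℕ, (Agent.GSP.cotP (r + 1)).natDegree ≤ r + 1 ∧
    (Agent.GSP.cotP (r + 1)).coeff (r + 1) = 1
  | 0 => by
    unfold Agent.GSP.cotP
    simp
  | (r + 1) => by
    obtain ⟨h1, h2⟩ := cotP_facts r
    have e : Agent.GSP.cotP (r + 1 + 1) = C (1 / (r + 1 : ℚ)) * (1 + X ^ 2) *
        derivative (Agent.GSP.cotP (r + 1)) := by
      rw [Agent.GSP.cotP]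
    have h3 : (derivative (Agent.GSP.cotP (r + 1))).natDegree ≤ r := by
      have := Polynomial.natDegree_derivative_le (Agent.GSP.cotP (r + 1))
      omega
    have h4 : (derivative (Agent.GSP.cotP (r + 1))).coeff r = r + 1 := by
      rw [Polynomial.coeff_derivative, h2]
      ring
    have h5 : (1 + X ^ 2 : ℚ[X]).natDegree ≤ 2 := by
      refine (Polynomial.natDegree_add_le _ _).trans (max_le ?_ ?_)
      · rw [Polynomial.natDegree_one]
        omega
      · rw [Polynomial.natDegree_X_pow]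
    constructor
    · rw [e, mul_assoc]
      refine (Polynomial.natDegree_C_mul_le _ _).trans (Polynomial.natDegree_mul_le.trans ?_)
      omega
    · rw [e, mul_assoc, Polynomial.coeff_C_mul,
        show r + 1 + 1 = 2 + r by ring, Polynomial.coeff_mul_add_eq_of_natDegree_le h5 h3, h4]
      have h6 : (1 + X ^ 2 : ℚ[X]).coeff 2 = 1 := by
        rw [Polynomial.coeff_add, Polynomial.coeff_X_pow, Polynomial.coeff_one]
        norm_num
      have h7 : (r + 1 : ℚ) ≠ 0 := by positivity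
      rw [h6]
      field_simp

theorem cotP_natDegree (r : ℕ) : ((Agent.GSP.cotP r).map (algebraMap ℚ ℂ)).natDegree ≤ r := by
  refine (Polynomial.natDegree_map_le).trans ?_
  rcases r with _ | r
  · simp [Agent.GSP.cotP]
  · exact (cotP_facts r).1

theorem cotP_coeff {r : ℕ} (hr : 1 ≤ r) :
    ((Agent.GSP.cotP r).map (algebraMap ℚ ℂ)).coeff r = 1 := by
  obtain ⟨m, rfl⟩ := Nat.exists_eq_add_of_le' hr
  rw [Polynomial.coeff_map, (cotP_facts m).2, map_one]

end Pool.H42.PF
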