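import Mathlib

/-!
# Rational functions with poles of the same order

`IsQ g r W b`: the function `g` is `P / ∏ (X - x) ^ r`, `x ∈ W`, outside `W ∪ {0}`, the degree of
`P` is at most `r * W.card`, and the coefficient of `(z - x) ^ (-r)` at `x ∈ W` is `b x * x ^ r`.
`IsRF g r W b`: in addition `b x ≠ 0` for `x ∈ W`.
-/

set_option autoImplicit false

open Polynomial Finset

namespace Pool.H42.PF

/-- The denominator. -/
noncomputable def den (r : ℕ) (W : Finset ℂ) : ℂ[X] := ∏ x ∈ W, (X - C x) ^ r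

/-- `g` is a rational function, of degree at most `r * W.card`, with poles in `W`, of the order
at most `r`, and with the coefficients `b x * x ^ r` of `(z - x) ^ (-r)`. -/
def IsQ (g : ℂ → ℂ) (r : ℕ) (W : Finset ℂ) (b : ℂ → ℂ) : Prop :=
  (0 : ℂ) ∉ W ∧ ∃ P : ℂ[X], P.natDegree ≤ r * W.card ∧
    (∀ x ∈ W, P.eval x = b x * x ^ r * (den r (W.erase x)).eval x) ∧
      ∀ z, z ≠ 0 → z ∉ W → g z * (den r W).eval z = P.eval z

/-- `g` is a rational function, of degree at most `r * W.card`, with the poles `W`, which are all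
of the order `r`, and with the leading coefficients `b x * x ^ r`. -/
def IsRF (g : ℂ → ℂ) (r : ℕ) (W : Finset ℂ) (b : ℂ → ℂ) : Prop :=
  (∀ x ∈ W, b x ≠ 0) ∧ IsQ g r W b

theorem den_eval (r : ℕ) (W : Finset ℂ) (z : ℂ) : (den r W).eval z = ∏ x ∈ W, (z - x) ^ r := by
  simp [den, Polynomial.eval_prod]

theorem den_eval_ne {r : ℕ} {W : Finset ℂ} {z : ℂ} (hz : z ∉ W) : (den r W).eval z ≠ 0 := by
  rw [den_eval]
  refine Finset.prod_ne_zero_iff.2 fun x hx => pow_ne_zero _ (sub_ne_zero.2 ?_)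
  rintro rfl
  exact hz hx

theorem den_eval_zero {r : ℕ} (hr : 1 ≤ r) {W : Finset ℂ} {z : ℂ} (hz : z ∈ W) :
    (den r W).eval z = 0 := by
  rw [den_eval]
  refine Finset.prod_eq_zero hz ?_
  rw [sub_self]
  exact zero_pow (by omega)

theorem den_ne (r : ℕ) (W : Finset ℂ) : den r W ≠ 0 :=
  Finset.prod_ne_zero_iff.2 fun x _ => pow_ne_zero _ (X_sub_C_ne_zero x)

theorem den_natDegree (r : ℕ) (W : Finset ℂ) : (den r W).natDegree = r * W.card := by
  unfold den
  rw [Polynomial.natDegree_prod _ _ fun x _ => pow_ne_zero _ (X_sub_C_ne_zero x)]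
  simp [Polynomial.natDegree_pow, mul_comm]

theorem den_erase {r : ℕ} {W : Finset ℂ} {x : ℂ} (hx : x ∈ W) :
    den r W = (X - C x) ^ r * den r (W.erase x) := by
  unfold den
  exact (Finset.mul_prod_erase W (fun x => (X - C x) ^ r) hx).symm

theorem den_rootMultiplicity {r : ℕ} {W : Finset ℂ} (x : ℂ) :
    (den r W).rootMultiplicity x = if x ∈ W then r else 0 := by
  by_cases hx : x ∈ W
  · rw [if_pos hx, den_erase hx, Polynomial.rootMultiplicity_mul (by
      rw [← den_erase hx]; exact den_ne r W), Polynomial.rootMultiplicity_X_sub_C_pow,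
      Polynomial.rootMultiplicity_eq_zero, add_zero]
    exact fun h => den_eval_ne (r := r) (Finset.notMem_erase x W) h
  · rw [if_neg hx, Polynomial.rootMultiplicity_eq_zero]
    exact fun h => den_eval_ne (r := r) hx h

/-- The multiplicity of a root of a square. -/
theorem rootMultiplicity_sq {p : ℂ[X]} (hp : p ≠ 0) (x : ℂ) :
    (p ^ 2).rootMultiplicity x = 2 * p.rootMultiplicity x := by
  rw [sq, Polynomial.rootMultiplicity_mul (mul_ne_zero hp hp)]
  ring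

namespace IsRF

variable {g g' g₀ g₁ g₂ g₃ : ℂ → ℂ} {r r' r₀ r₁ r₂ r₃ : ℕ} {W W' W₀ W₁ W₂ W₃ : Finset ℂ}
  {b b' b₀ b₁ b₂ b₃ : ℂ → ℂ}

/-- The identity principle. -/
theorem ident {A B : ℂ[X]} {n : ℕ} (hA : A.natDegree ≤ n) (hB : B.natDegree ≤ n)
    {Z : Finset ℂ} (hZ : n < Z.card) (h : ∀ z ∈ Z, A.eval z = B.eval z) : A = B := by
  by_contra hne
  have h0 : A - B ≠ 0 := sub_ne_zero.2 hne
  have h1 : Z.card ≤ (A - B).roots.toFinset.card := by
    refine Finset.card_le_card fun z hz => ?_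
    rw [Multiset.mem_toFinset, Polynomial.mem_roots h0, Polynomial.IsRoot.def, Polynomial.eval_sub,
      h z hz, sub_self]
  have h2 := (Multiset.toFinset_card_le (A - B).roots).trans (Polynomial.card_roots' (A - B))
  have h3 := Polynomial.natDegree_sub_le A B
  have h4 : max A.natDegree B.natDegree ≤ n := max_le hA hB
  omega

/-- A bound for the number of the zeros. -/
theorem card_zeros (h : IsRF g r W b) (hW : W.Nonempty) {Z : Finset ℂ}
    (hZ : ∀ z ∈ Z, z ≠ 0 ∧ z ∉ W ∧ g z = 0) : Z.card ≤ r * W.card := by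
  obtain ⟨hb, h0, P, hP, hP1, hP2⟩ := h
  obtain ⟨x, hx⟩ := hW
  have hne : P ≠ 0 := by
    rintro rfl
    have h1 := hP1 x hx
    rw [Polynomial.eval_zero] at h1
    exact mul_ne_zero (mul_ne_zero (hb x hx) (pow_ne_zero _ fun h => h0 (h ▸ hx)))
      (den_eval_ne (Finset.notMem_erase x W)) h1.symm
  have h1 : Z.card ≤ P.roots.toFinset.card := by
    refine Finset.card_le_card fun z hz => ?_
    obtain ⟨h2, h3, h4⟩ := hZ z hz
    rw [Multiset.mem_toFinset, Polynomial.mem_roots hne, Polynomial.IsRoot.def, ← hP2 z h2 h3, h4,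
      zero_mul]
  exact h1.trans ((Multiset.toFinset_card_le _).trans ((Polynomial.card_roots' _).trans hP))

/-- The comparison of the squares. -/
theorem compare (h₁ : IsRF g₁ r₁ W₁ b₁) (h₂ : IsRF g₂ r₂ W₂ b₂) (hr₁ : 1 ≤ r₁) (hr₂ : 1 ≤ r₂)
    {c₁ c₂ : ℂ} (hc₁ : c₁ ≠ 0) (hc₂ : c₂ ≠ 0) {Z : Finset ℂ}
    (hcard : 2 * (r₁ * W₁.card + r₂ * W₂.card) < Z.card)
    (hZ : ∀ z ∈ Z, z ≠ 0 ∧ z ∉ W₁ ∧ z ∉ W₂ ∧ c₁ * g₁ z ^ 2 = c₂ * g₂ z ^ 2) :
    W₁ = W₂ ∧ (W₁.Nonempty → r₁ = r₂) ∧ ∀ x ∈ W₁, c₁ * b₁ x ^ 2 = c₂ * b₂ x ^ 2 := by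
  obtain ⟨hb1, h01, P1, hP1, hP1', hP1''⟩ := h₁
  obtain ⟨hb2, h02, P2, hP2, hP2', hP2''⟩ := h₂
  have key : C c₁ * P1 ^ 2 * den r₂ W₂ ^ 2 = C c₂ * P2 ^ 2 * den r₁ W₁ ^ 2 := by
    refine ident (n := 2 * (r₁ * W₁.card + r₂ * W₂.card)) ?_ ?_ hcard ?_
    · refine (Polynomial.natDegree_mul_le).trans ?_
      have e1 := Polynomial.natDegree_C_mul_le c₁ (P1 ^ 2)
      have e2 := Polynomial.natDegree_pow_le (p := P1) (n := 2)
      have e3 := Polynomial.natDegree_pow_le (p := den r₂ W₂) (n := 2)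
      rw [den_natDegree] at e3
      omega
    · refine (Polynomial.natDegree_mul_le).trans ?_
      have e1 := Polynomial.natDegree_C_mul_le c₂ (P2 ^ 2)
      have e2 := Polynomial.natDegree_pow_le (p := P2) (n := 2)
      have e3 := Polynomial.natDegree_pow_le (p := den r₁ W₁) (n := 2)
      rw [den_natDegree] at e3
      omega
    · intro z hz
      obtain ⟨h1, h2, h3, h4⟩ := hZ z hz
      simp only [Polynomial.eval_mul, Polynomial.eval_pow, Polynomial.eval_C]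
      rw [← hP1'' z h1 h2, ← hP2'' z h1 h3]
      linear_combination (den r₁ W₁).eval z ^ 2 * (den r₂ W₂).eval z ^ 2 * h4
  -- a pole of one of the two functions is a pole of the other one, and the orders are the same
  have main : ∀ (c d : ℂ) (P Q : ℂ[X]) (r s : ℕ) (U V : Finset ℂ), c ≠ 0 → d ≠ 0 → 1 ≤ r →
      (∀ x ∈ U, P.eval x ≠ 0) → (∀ x ∈ V, Q.eval x ≠ 0) → (Q ≠ 0) →
      C c * P ^ 2 * den s V ^ 2 = C d * Q ^ 2 * den r U ^ 2 → ∀ x ∈ U, x ∈ V ∧ r = s := by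
    intro c d P Q r s U V hc hd hr hP hQ hQ0 hk x hx
    have hPx := hP x hx
    have hP0 : P ≠ 0 := by
      rintro rfl
      exact hPx Polynomial.eval_zero
    have e := congrArg (Polynomial.rootMultiplicity x) hk
    have n1 : C c * P ^ 2 ≠ 0 := mul_ne_zero (Polynomial.C_ne_zero.2 hc) (pow_ne_zero _ hP0)
    have n2 : C d * Q ^ 2 ≠ 0 := mul_ne_zero (Polynomial.C_ne_zero.2 hd) (pow_ne_zero _ hQ0)
    rw [Polynomial.rootMultiplicity_mul (mul_ne_zero n1 (pow_ne_zero _ (den_ne _ _))),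
      Polynomial.rootMultiplicity_mul (mul_ne_zero n2 (pow_ne_zero _ (den_ne _ _))),
      Polynomial.rootMultiplicity_mul n1, Polynomial.rootMultiplicity_mul n2,
      Polynomial.rootMultiplicity_C, Polynomial.rootMultiplicity_C,
      rootMultiplicity_sq hP0, rootMultiplicity_sq hQ0,
      rootMultiplicity_sq (den_ne _ _), rootMultiplicity_sq (den_ne _ _),
      den_rootMultiplicity, den_rootMultiplicity, if_pos hx,
      (Polynomial.rootMultiplicity_eq_zero (fun h => hPx h) : P.rootMultiplicity x = 0)] at e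
    by_cases hxV : x ∈ V
    · rw [if_pos hxV, (Polynomial.rootMultiplicity_eq_zero (fun h => hQ x hxV h) :
        Q.rootMultiplicity x = 0)] at e
      exact ⟨hxV, by omega⟩
    · rw [if_neg hxV] at e
      omega
  have hP1n : ∀ x ∈ W₁, P1.eval x ≠ 0 := by
    intro x hx
    rw [hP1' x hx]
    exact mul_ne_zero (mul_ne_zero (hb1 x hx) (pow_ne_zero _ fun h => h01 (h ▸ hx)))
      (den_eval_ne (Finset.notMem_erase x W₁))
  have hP2n : ∀ x ∈ W₂, P2.eval x ≠ 0 := by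
    intro x hx
    rw [hP2' x hx]
    exact mul_ne_zero (mul_ne_zero (hb2 x hx) (pow_ne_zero _ fun h => h02 (h ▸ hx)))
      (den_eval_ne (Finset.notMem_erase x W₂))
  -- one of the polynomials is zero if and only if the other one is
  have hz : P1 = 0 ↔ P2 = 0 := by
    constructor
    · rintro rfl
      have : C c₂ * P2 ^ 2 * den r₁ W₁ ^ 2 = 0 := by rw [← key]; ring
      rcases mul_eq_zero.1 this with h | h
      · rcases mul_eq_zero.1 h with h | h
        · exact absurd (Polynomial.C_eq_zero.1 h) hc₂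
        · exact pow_eq_zero_iff (two_ne_zero) |>.1 h
      · exact absurd h (pow_ne_zero _ (den_ne _ _))
    · rintro rfl
      have : C c₁ * P1 ^ 2 * den r₂ W₂ ^ 2 = 0 := by rw [key]; ring
      rcases mul_eq_zero.1 this with h | h
      · rcases mul_eq_zero.1 h with h | h
        · exact absurd (Polynomial.C_eq_zero.1 h) hc₁
        · exact pow_eq_zero_iff (two_ne_zero) |>.1 h
      · exact absurd h (pow_ne_zero _ (den_ne _ _))
  have hA : ∀ x ∈ W₁, x ∈ W₂ ∧ r₁ = r₂ := by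
    intro x hx
    have hP20 : P2 ≠ 0 := by
      intro h
      apply hP1n x hx
      rw [hz.2 h, Polynomial.eval_zero]
    exact main c₁ c₂ P1 P2 r₁ r₂ W₁ W₂ hc₁ hc₂ hr₁ hP1n hP2n hP20 key x hx
  have hB : ∀ x ∈ W₂, x ∈ W₁ ∧ r₂ = r₁ := by
    intro x hx
    have hP10 : P1 ≠ 0 := by
      intro h
      apply hP2n x hx
      rw [hz.1 h, Polynomial.eval_zero]
    exact main c₂ c₁ P2 P1 r₂ r₁ W₂ W₁ hc₂ hc₁ hr₂ hP2n hP1n hP10 key.symm x hx
  have hWW : W₁ = W₂ := Finset.Subset.antisymm (fun x hx => (hA x hx).1) fun x hx => (hB x hx).1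
  refine ⟨hWW, fun ⟨x, hx⟩ => (hA x hx).2, fun x hx => ?_⟩
  have hrr : r₁ = r₂ := (hA x hx).2
  subst hWW hrr
  have e1 : C c₁ * P1 ^ 2 = C c₂ * P2 ^ 2 :=
    mul_right_cancel₀ (pow_ne_zero 2 (den_ne r₁ W₁)) key
  have e2 := congrArg (Polynomial.eval x) e1
  simp only [Polynomial.eval_mul, Polynomial.eval_pow, Polynomial.eval_C] at e2
  rw [hP1' x hx, hP2' x hx] at e2
  have e3 : (x ^ r₁ * (den r₁ (W₁.erase x)).eval x) ^ 2 ≠ 0 :=
    pow_ne_zero _ (mul_ne_zero (pow_ne_zero _ fun h => h01 (h ▸ hx))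
      (den_eval_ne (Finset.notMem_erase x W₁)))
  apply mul_right_cancel₀ e3
  linear_combination e2

/-- The square is not constant. -/
theorem not_const (h : IsRF g r W b) (hr : 1 ≤ r) (hW : W.Nonempty) {c : ℂ} {Z : Finset ℂ}
    (hcard : 2 * (r * W.card) < Z.card) (hZ : ∀ z ∈ Z, z ≠ 0 ∧ z ∉ W ∧ g z ^ 2 = c) : False := by
  obtain ⟨hb, h0, P, hP, hP1, hP2⟩ := h
  have key : P ^ 2 = C c * den r W ^ 2 := by
    refine ident (n := 2 * (r * W.card)) ?_ ?_ hcard ?_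
    · have e2 := Polynomial.natDegree_pow_le (p := P) (n := 2)
      omega
    · have e1 := Polynomial.natDegree_C_mul_le c (den r W ^ 2)
      have e3 := Polynomial.natDegree_pow_le (p := den r W) (n := 2)
      rw [den_natDegree] at e3
      omega
    · intro z hz
      obtain ⟨h1, h2, h4⟩ := hZ z hz
      simp only [Polynomial.eval_mul, Polynomial.eval_pow, Polynomial.eval_C]
      rw [← hP2 z h1 h2]
      linear_combination (den r W).eval z ^ 2 * h4
  obtain ⟨x, hx⟩ := hW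
  have e := congrArg (Polynomial.eval x) key
  simp only [Polynomial.eval_mul, Polynomial.eval_pow, Polynomial.eval_C] at e
  rw [den_eval_zero hr hx, hP1 x hx] at e
  have e3 : b x * x ^ r * (den r (W.erase x)).eval x ≠ 0 :=
    mul_ne_zero (mul_ne_zero (hb x hx) (pow_ne_zero _ fun h => h0 (h ▸ hx)))
      (den_eval_ne (Finset.notMem_erase x W))
  apply pow_ne_zero 2 e3
  rw [e]
  ring

/-- The comparison of two products: a pole of the first factor which is no pole of the factors on the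
other side is a zero of the second factor. -/
theorem compare_four (h₃ : IsRF g₃ r₃ W₃ b₃) (h₀ : IsRF g₀ r₀ W₀ b₀) (h₁ : IsRF g₁ r₁ W₁ b₁)
    (h₂ : IsRF g₂ r₂ W₂ b₂) (hr₃ : 1 ≤ r₃) {c₁ c₂ : ℂ} (hc₁ : c₁ ≠ 0) {Z : Finset ℂ}
    (hcard : 2 * (r₃ * W₃.card + r₀ * W₀.card + r₁ * W₁.card + r₂ * W₂.card) < Z.card)
    (hZ : ∀ z ∈ Z, z ≠ 0 ∧ z ∉ W₃ ∧ z ∉ W₀ ∧ z ∉ W₁ ∧ z ∉ W₂ ∧
      c₁ * g₃ z ^ 2 * g₀ z ^ 2 = c₂ * g₁ z ^ 2 * g₂ z ^ 2)
    {x : ℂ} (hx : x ∈ W₃) (hx₁ : x ∉ W₁) (hx₂ : x ∉ W₂) : x ∉ W₀ ∧ g₀ x = 0 := by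
  obtain ⟨hb3, h03, P3, hP3, hP3', hP3''⟩ := h₃
  obtain ⟨hb0, h00, P0, hP0, hP0', hP0''⟩ := h₀
  obtain ⟨hb1, h01, P1, hP1, hP1', hP1''⟩ := h₁
  obtain ⟨hb2, h02, P2, hP2, hP2', hP2''⟩ := h₂
  have key : C c₁ * P3 ^ 2 * P0 ^ 2 * (den r₁ W₁ ^ 2 * den r₂ W₂ ^ 2) =
      C c₂ * P1 ^ 2 * P2 ^ 2 * (den r₃ W₃ ^ 2 * den r₀ W₀ ^ 2) := by
    have deg : ∀ (c : ℂ) (A B D E : ℂ[X]) (a b d e : ℕ), A.natDegree ≤ a → B.natDegree ≤ b →
        D.natDegree ≤ d → E.natDegree ≤ e →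
        (C c * A ^ 2 * B ^ 2 * (D ^ 2 * E ^ 2)).natDegree ≤ 2 * (a + b + d + e) := by
      intro c A B D E a b d e hA hB hD hE
      have e1 := Polynomial.natDegree_pow_le (p := A) (n := 2)
      have e2 := Polynomial.natDegree_pow_le (p := B) (n := 2)
      have e3 := Polynomial.natDegree_pow_le (p := D) (n := 2)
      have e4 := Polynomial.natDegree_pow_le (p := E) (n := 2)
      have f1 := Polynomial.natDegree_C_mul_le c (A ^ 2)
      have f2 := Polynomial.natDegree_mul_le (p := C c * A ^ 2) (q := B ^ 2)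
      have f3 := Polynomial.natDegree_mul_le (p := D ^ 2) (q := E ^ 2)
      have f4 := Polynomial.natDegree_mul_le (p := C c * A ^ 2 * B ^ 2) (q := D ^ 2 * E ^ 2)
      omega
    refine ident (n := 2 * (r₃ * W₃.card + r₀ * W₀.card + r₁ * W₁.card + r₂ * W₂.card)) ?_ ?_
      hcard ?_
    · exact deg c₁ P3 P0 _ _ _ _ _ _ hP3 hP0 (den_natDegree r₁ W₁).le (den_natDegree r₂ W₂).le
    · refine (deg c₂ P1 P2 _ _ _ _ _ _ hP1 hP2 (den_natDegree r₃ W₃).le
        (den_natDegree r₀ W₀).le).trans ?_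
      omega
    · intro z hz
      obtain ⟨h1, h2, h3, h4, h5, h6⟩ := hZ z hz
      simp only [Polynomial.eval_mul, Polynomial.eval_pow, Polynomial.eval_C]
      rw [← hP3'' z h1 h2, ← hP0'' z h1 h3, ← hP1'' z h1 h4, ← hP2'' z h1 h5]
      linear_combination (den r₁ W₁).eval z ^ 2 * (den r₂ W₂).eval z ^ 2 *
        (den r₃ W₃).eval z ^ 2 * (den r₀ W₀).eval z ^ 2 * h6
  have e := congrArg (Polynomial.eval x) key
  simp only [Polynomial.eval_mul, Polynomial.eval_pow, Polynomial.eval_C] at e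
  rw [den_eval_zero hr₃ hx, hP3' x hx] at e
  have e3 : b₃ x * x ^ r₃ * (den r₃ (W₃.erase x)).eval x ≠ 0 :=
    mul_ne_zero (mul_ne_zero (hb3 x hx) (pow_ne_zero _ fun h => h03 (h ▸ hx)))
      (den_eval_ne (Finset.notMem_erase x W₃))
  have hd1 := den_eval_ne (r := r₁) hx₁
  have hd2 := den_eval_ne (r := r₂) hx₂
  have hx0 : x ≠ 0 := fun h => h03 (h ▸ hx)
  have hP0x : P0.eval x = 0 := by
    by_contra hne
    have hnz : c₁ * (b₃ x * x ^ r₃ * (den r₃ (W₃.erase x)).eval x) ^ 2 * P0.eval x ^ 2 *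
        ((den r₁ W₁).eval x ^ 2 * (den r₂ W₂).eval x ^ 2) ≠ 0 :=
      mul_ne_zero (mul_ne_zero (mul_ne_zero hc₁ (pow_ne_zero _ e3)) (pow_ne_zero _ hne))
        (mul_ne_zero (pow_ne_zero _ hd1) (pow_ne_zero _ hd2))
    apply hnz
    rw [e]
    ring
  have hx0W : x ∉ W₀ := by
    intro hxW
    have h1 := hP0' x hxW
    rw [hP0x] at h1
    exact mul_ne_zero (mul_ne_zero (hb0 x hxW) (pow_ne_zero _ hx0))
      (den_eval_ne (Finset.notMem_erase x W₀)) h1.symm
  refine ⟨hx0W, ?_⟩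
  have h1 := hP0'' x hx0 hx0W
  rw [hP0x] at h1
  exact (mul_eq_zero.1 h1).resolve_right (den_eval_ne hx0W)

end IsRF

namespace IsQ

variable {g f : ℂ → ℂ} {r : ℕ} {W : Finset ℂ} {b c : ℂ → ℂ}

theorem zero_notMem (h : IsQ g r W b) : (0 : ℂ) ∉ W := h.1

theorem congr (h : IsQ g r W b) (hf : ∀ z, z ≠ 0 → z ∉ W → f z = g z) (hc : ∀ x ∈ W, c x = b x) :
    IsQ f r W c := by
  obtain ⟨h0, P, hP, hP1, hP2⟩ := h
  refine ⟨h0, P, hP, fun x hx => ?_, fun z hz hzW => ?_⟩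
  · rw [hc x hx]
    exact hP1 x hx
  · rw [hf z hz hzW]
    exact hP2 z hz hzW

theorem const_mul (h : IsQ g r W b) (a : ℂ) :
    IsQ (fun z => a * g z) r W fun x => a * b x := by
  obtain ⟨h0, P, hP, hP1, hP2⟩ := h
  refine ⟨h0, C a * P, (Polynomial.natDegree_C_mul_le a P).trans hP, fun x hx => ?_,
    fun z hz hzW => ?_⟩
  · rw [Polynomial.eval_mul, Polynomial.eval_C, hP1 x hx]
    ring
  · rw [Polynomial.eval_mul, Polynomial.eval_C, ← hP2 z hz hzW]
    ring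

end IsQ

theorem IsRF.congr {g f : ℂ → ℂ} {r : ℕ} {W : Finset ℂ} {b c : ℂ → ℂ} (h : IsRF g r W b)
    (hf : ∀ z, z ≠ 0 → z ∉ W → f z = g z) (hc : ∀ x ∈ W, c x = b x) : IsRF f r W c :=
  ⟨fun x hx => by rw [hc x hx]; exact h.1 x hx, h.2.congr hf hc⟩

theorem IsRF.const_mul {g : ℂ → ℂ} {r : ℕ} {W : Finset ℂ} {b : ℂ → ℂ} (h : IsRF g r W b) {a : ℂ}
    (ha : a ≠ 0) : IsRF (fun z => a * g z) r W fun x => a * b x :=
  ⟨fun x hx => mul_ne_zero ha (h.1 x hx), h.2.const_mul a⟩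

/-- The comparison of the quotients of two functions with the same poles up to a constant. -/
theorem IsQ.cross {g f g' f' : ℂ → ℂ} {r : ℕ} {W : Finset ℂ} {b c b' c' : ℂ → ℂ}
    (hf : IsQ f (r + 1) W c) (hg : IsQ g r W b) (hf' : IsQ f' (r + 1) W c') (hg' : IsQ g' r W b')
    {K : ℂ} {Z : Finset ℂ} (hcard : (2 * r + 1) * W.card < Z.card)
    (hZ : ∀ z ∈ Z, z ≠ 0 ∧ z ∉ W ∧ f z * g' z - f' z * g z = K * g z * g' z) {x : ℂ}
    (hx : x ∈ W) : c x * b' x = c' x * b x := by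
  obtain ⟨h0, F, hF, hF1, hF2⟩ := hf
  obtain ⟨-, G, hG, hG1, hG2⟩ := hg
  obtain ⟨-, F', hF', hF1', hF2'⟩ := hf'
  obtain ⟨-, G', hG', hG1', hG2'⟩ := hg'
  have dd : ∀ z, (den (r + 1) W).eval z = (den r W).eval z * (den 1 W).eval z := by
    intro z
    rw [den_eval, den_eval, den_eval, ← Finset.prod_mul_distrib]
    refine Finset.prod_congr rfl fun y _ => ?_
    rw [pow_succ, pow_one]
  have key : F * G' - F' * G = C K * G * G' * den 1 W := by
    refine IsRF.ident (n := (2 * r + 1) * W.card) ?_ ?_ hcard ?_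
    · refine (Polynomial.natDegree_sub_le _ _).trans (max_le ?_ ?_)
      · refine Polynomial.natDegree_mul_le.trans ?_
        nlinarith
      · refine Polynomial.natDegree_mul_le.trans ?_
        nlinarith
    · have e1 := Polynomial.natDegree_mul_le (p := C K * G * G') (q := den 1 W)
      have e2 := Polynomial.natDegree_mul_le (p := C K * G) (q := G')
      have e3 := Polynomial.natDegree_C_mul_le K G
      rw [den_natDegree] at e1
      nlinarith
    · intro z hz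
      obtain ⟨h1, h2, h3⟩ := hZ z hz
      simp only [Polynomial.eval_mul, Polynomial.eval_sub, Polynomial.eval_C]
      rw [← hF2 z h1 h2, ← hG2 z h1 h2, ← hF2' z h1 h2, ← hG2' z h1 h2, dd]
      linear_combination (den r W).eval z ^ 2 * (den 1 W).eval z * h3
  have e := congrArg (Polynomial.eval x) key
  simp only [Polynomial.eval_mul, Polynomial.eval_sub, Polynomial.eval_C] at e
  rw [den_eval_zero le_rfl hx, mul_zero, hF1 x hx, hG1 x hx, hF1' x hx, hG1' x hx] at e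
  have hx0 : x ≠ 0 := fun h => h0 (h ▸ hx)
  have e1 : x ^ (r + 1) * x ^ r * ((den (r + 1) (W.erase x)).eval x *
      (den r (W.erase x)).eval x) ≠ 0 :=
    mul_ne_zero (mul_ne_zero (pow_ne_zero _ hx0) (pow_ne_zero _ hx0))
      (mul_ne_zero (den_eval_ne (Finset.notMem_erase x W)) (den_eval_ne (Finset.notMem_erase x W)))
  apply mul_right_cancel₀ e1
  linear_combination e

end Pool.H42.PF
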