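import Pool.Agent.H42.PF.Cot
import Pool.Agent.GSP.A3

/-!
# The coefficients of the conjugate moments
-/

set_option autoImplicit false

open Polynomial Finset

namespace Pool.H42.PF

open Pool.Agent.GSP

/-- The Taylor coefficient. -/
noncomputable def tc (k i : ℕ) (x : ℚ) : ℚ := (Polynomial.taylor x (binP k)).coeff i

/-- The function of the leaf `q`, for the coefficient `r`; `z = exp (2 π i θ)`. -/
noncomputable def gg (S : Finset ℕ) (k i r q : ℕ) (s : ℤ) (z : ℂ) : ℂ :=
  cs ((cotP r).map (algebraMap ℚ ℂ)) (S.powerset.filter fun T => q ∈ T)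
    (fun T => Complex.exp (2 * Real.pi * Complex.I * (s * (al S T : ℂ) - k / 2)))
    (fun T => (-1) ^ (S \ T).card * (tc k i (al S T) : ℂ)) z

private theorem ct_neg (x : ℝ) : ct (-x) = -ct x := by
  unfold ct
  rw [mul_neg, Real.cos_neg, Real.sin_neg, div_neg]

private theorem ct_int (x : ℝ) (n : ℤ) : ct (x + n) = ct x := by
  have h1 : Real.pi * (x + n) = Real.pi * x + n * Real.pi := by ring
  unfold ct
  rw [h1, Real.cos_add_int_mul_pi, Real.sin_add_int_mul_pi]
  have h2 : ((-1 : ℝ) ^ n) ≠ 0 := zpow_ne_zero _ (by norm_num)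
  rw [mul_div_mul_left _ _ h2]

private theorem al_compl {S T : Finset ℕ} (hT : T ⊆ S) : al S (S \ T) = -al S T := by
  unfold al
  rw [Finset.sdiff_sdiff_eq_self hT]
  ring

private theorem binP_comp (k : ℕ) : (binP k).comp (-X) = (-1) ^ (k - 1) * binP k := by
  unfold binP
  rw [Polynomial.mul_comp, Polynomial.C_comp, Polynomial.prod_comp]
  have h1 : ∀ i ∈ range (k - 1), ((X + C ((k : ℚ) / 2 - (i + 1)) : ℚ[X])).comp (-X) =
      -1 * (X + C ((k : ℚ) / 2 - ((k - 1 - 1 - i : ℕ) + 1))) := by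
    intro i hi
    rw [Finset.mem_range] at hi
    rw [Polynomial.add_comp, Polynomial.X_comp, Polynomial.C_comp]
    have h2 : ((k - 1 - 1 - i : ℕ) : ℚ) = k - 2 - i := by
      have : k - 1 - 1 - i + 2 + i = k := by omega
      have h3 := congrArg (fun n : ℕ => (n : ℚ)) this
      push_cast at h3
      linarith
    rw [h2]
    have h4 : (C ((k : ℚ) / 2 - (k - 2 - i + 1)) : ℚ[X]) = -C ((k : ℚ) / 2 - (i + 1)) := by
      rw [← Polynomial.C_neg]
      congr 1
      ring
    rw [h4]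
    ring
  rw [Finset.prod_congr rfl h1, Finset.prod_mul_distrib, Finset.prod_const, Finset.card_range,
    Finset.prod_range_reflect (fun i => (X + C ((k : ℚ) / 2 - ((i : ℕ) + 1)) : ℚ[X])) (k - 1)]
  ring

private theorem natDegree_binP (k : ℕ) : (binP k).natDegree ≤ k - 1 := by
  unfold binP
  refine (Polynomial.natDegree_C_mul_le _ _).trans ((Polynomial.natDegree_prod_le _ _).trans ?_)
  refine (Finset.sum_le_sum fun i _ => (Polynomial.natDegree_X_add_C _).le).trans ?_
  simp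

/-- The parity of the Taylor coefficients. -/
theorem tc_neg {k i : ℕ} (hi : i + 1 ≤ k) (x : ℚ) :
    tc k i (-x) = (-1) ^ (k - 1 - i) * tc k i x := by
  unfold tc
  have h1 : (Polynomial.taylor (-x) (binP k)).comp (-X) =
      (-1) ^ (k - 1) * Polynomial.taylor x (binP k) := by
    have h2 := congrArg (fun p : ℚ[X] => p.comp (X + C x)) (binP_comp k)
    simp only [Polynomial.comp_assoc, Polynomial.mul_comp, Polynomial.neg_comp,
      Polynomial.X_comp] at h2
    rw [Polynomial.taylor_apply, Polynomial.taylor_apply, Polynomial.comp_assoc]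
    have h3 : (X + C (-x) : ℚ[X]).comp (-X) = -(X + C x) := by
      rw [Polynomial.add_comp, Polynomial.X_comp, Polynomial.C_comp, Polynomial.C_neg]
      ring
    rw [h3, h2]
    congr 1
    simp
  have h2 := congrArg (fun p : ℚ[X] => p.coeff i) h1
  have h3 : ((-1 : ℚ[X]) ^ (k - 1)) = C ((-1 : ℚ) ^ (k - 1)) := by simp
  have h6 : (-X : ℚ[X]) = C (-1) * X := by simp
  simp only [h3, h6, Polynomial.comp_C_mul_X_coeff, Polynomial.coeff_C_mul] at h2
  have h4 : ((-1 : ℚ) ^ i) * (-1) ^ i = 1 := by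
    rw [← mul_pow]
    norm_num
  have h5 : ((-1 : ℚ) ^ (k - 1)) = (-1) ^ (k - 1 - i) * (-1) ^ i := by
    rw [← pow_add]
    congr 1
    omega
  rw [h5] at h2
  linear_combination (-1) ^ i * h2 + ((-1) ^ (k - 1 - i) * (Polynomial.taylor x (binP k)).coeff i -
    (Polynomial.taylor (-x) (binP k)).coeff i) * h4

theorem coeff_raw {S : Finset ℕ} (hne : S ≠ ∅) (k j : ℕ) {r : ℕ} (hr : 1 ≤ r)
    (hr2 : r ≤ ex S k j + 1) (hrk : ex S k j + 1 - r < k) (s : ℤ) :
    (YY S k j s).coeff r = (∏ p ∈ S, (p : ℝ)) * ((ex S k j).factorial : ℝ) / 2 *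
      ∑ T ∈ S.powerset, (-1) ^ (S \ T).card * ((tc k (ex S k j + 1 - r) (al S T) : ℚ) : ℝ) *
        ((-1) ^ r * ((cotP r).map (algebraMap ℚ ℝ)).eval (ct (s * (al S T : ℝ) - k / 2))) := by
  unfold YY
  rw [if_neg hne, Polynomial.coeff_C_mul, Polynomial.finsetSum_coeff]
  congr 1
  refine Finset.sum_congr rfl fun T _ => ?_
  have h3 : ((-1 : ℝ[X]) ^ (S \ T).card) = C ((-1 : ℝ) ^ (S \ T).card) := by simp
  rw [h3, Polynomial.coeff_C_mul, Polynomial.finsetSum_coeff,
    Finset.sum_eq_single_of_mem (ex S k j + 1 - r) (Finset.mem_range.2 hrk)]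
  · have h4 : ex S k j + 1 - (ex S k j + 1 - r) = r := by omega
    rw [h4, mul_assoc, Polynomial.coeff_C_mul, Polynomial.coeff_C_mul, Polynomial.coeff_X_pow,
      if_pos rfl, mul_one]
    unfold tc
    ring
  · intro i _ hi
    rw [mul_assoc, Polynomial.coeff_C_mul, Polynomial.coeff_C_mul, Polynomial.coeff_X_pow,
      if_neg (by omega), mul_zero, mul_zero]

/-- The coefficients of the conjugate moments, as values of the functions `gg`. -/
theorem coeff_YY {S : Finset ℕ} {k j q : ℕ} (hq : q ∈ S) (ha : S.card ≤ k + 2 + 2 * j) {r : ℕ}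
    (hr : 1 ≤ r) (hr2 : r ≤ ex S k j + 1) (hrk : ex S k j + 1 - r < k) (s : ℤ) :
    (((YY S k j s).coeff r : ℝ) : ℂ) = ((∏ p ∈ S, (p : ℂ)) * (ex S k j).factorial * (-1) ^ r) *
      gg S k (ex S k j + 1 - r) r q s 1 := by
  have hne : S ≠ ∅ := Finset.ne_empty_of_mem hq
  set i := ex S k j + 1 - r with hi
  set f : Finset ℕ → ℝ := fun T => (-1) ^ (S \ T).card * ((tc k i (al S T) : ℚ) : ℝ) *
    ((-1) ^ r * ((cotP r).map (algebraMap ℚ ℝ)).eval (ct (s * (al S T : ℝ) - k / 2))) with hf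
  have hsym : ∀ T, T ⊆ S → f (S \ T) = f T := by
    intro T hT
    rw [hf]
    show (-1) ^ (S \ (S \ T)).card * ((tc k i (al S (S \ T)) : ℚ) : ℝ) *
      ((-1) ^ r * ((cotP r).map (algebraMap ℚ ℝ)).eval (ct (s * (al S (S \ T) : ℝ) - k / 2))) =
      (-1) ^ (S \ T).card * ((tc k i (al S T) : ℚ) : ℝ) *
        ((-1) ^ r * ((cotP r).map (algebraMap ℚ ℝ)).eval (ct (s * (al S T : ℝ) - k / 2)))
    rw [Finset.sdiff_sdiff_eq_self hT, al_compl hT, tc_neg (by omega)]
    have h1 : ct (s * ((-al S T : ℚ) : ℝ) - k / 2) = -ct (s * (al S T : ℝ) - k / 2) := by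
      have h2 : (s * ((-al S T : ℚ) : ℝ) - k / 2 : ℝ) =
          -(s * (al S T : ℝ) - k / 2) + ((-k : ℤ) : ℝ) := by
        push_cast
        ring
      rw [h2, ct_int, ct_neg]
    rw [h1, cotP_neg]
    have hcard : T.card + (S \ T).card = S.card := by
      rw [add_comm]
      exact Finset.card_sdiff_add_card_eq_card hT
    have hex : ex S k j + S.card = k + 2 + 2 * j := by
      unfold ex
      omega
    have hpar : Even (T.card + (k - 1 - i) + r + (S \ T).card) := by
      refine ⟨S.card + r - 2 - j, ?_⟩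
      omega
    have h5 : ((-1 : ℝ)) ^ (T.card + (k - 1 - i) + r + (S \ T).card) = 1 := hpar.neg_one_pow
    have h6 : ((-1 : ℝ)) ^ (S \ T).card * (-1) ^ (S \ T).card = 1 := by
      rw [← mul_pow]
      norm_num
    have h7 : ((-1 : ℝ)) ^ T.card * (-1) ^ (k - 1 - i) * (-1) ^ r = (-1) ^ (S \ T).card := by
      rw [pow_add, pow_add, pow_add] at h5
      linear_combination (-1) ^ (S \ T).card * h5 -
        (-1) ^ T.card * (-1) ^ (k - 1 - i) * (-1) ^ r * h6
    rw [← h7]
    push_cast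
    ring
  have hsum : ∑ T ∈ S.powerset, f T = 2 * ∑ T ∈ S.powerset.filter (fun T => q ∈ T), f T := by
    rw [← Finset.sum_filter_add_sum_filter_not S.powerset (fun T => q ∈ T), two_mul]
    congr 1
    refine Finset.sum_bij' (fun T _ => S \ T) (fun T _ => S \ T) ?_ ?_ ?_ ?_ ?_
    · intro T hT
      rw [Finset.mem_filter, Finset.mem_powerset] at hT ⊢
      exact ⟨Finset.sdiff_subset, Finset.mem_sdiff.2 ⟨hq, hT.2⟩⟩
    · intro T hT
      rw [Finset.mem_filter, Finset.mem_powerset] at hT ⊢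
      exact ⟨Finset.sdiff_subset, fun h => (Finset.mem_sdiff.1 h).2 hT.2⟩
    · intro T hT
      rw [Finset.mem_filter, Finset.mem_powerset] at hT
      exact Finset.sdiff_sdiff_eq_self hT.1
    · intro T hT
      rw [Finset.mem_filter, Finset.mem_powerset] at hT
      exact Finset.sdiff_sdiff_eq_self hT.1
    · intro T hT
      rw [Finset.mem_filter, Finset.mem_powerset] at hT
      exact (hsym T hT.1).symm
  rw [coeff_raw hne k j hr hr2 hrk s, ← hi, hsum]
  unfold gg cs
  rw [Complex.ofReal_mul, Complex.ofReal_mul, Complex.ofReal_sum, Finset.mul_sum, Finset.mul_sum,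
    Finset.mul_sum]
  refine Finset.sum_congr rfl fun T _ => ?_
  have h8 : Complex.I * (Complex.exp (2 * Real.pi * Complex.I * (s * (al S T : ℂ) - k / 2)) * 1 + 1) /
      (Complex.exp (2 * Real.pi * Complex.I * (s * (al S T : ℂ) - k / 2)) * 1 - 1) =
      ((ct (s * (al S T : ℝ) - k / 2) : ℝ) : ℂ) := by
    rw [ct_eq, mul_one]
    push_cast
    rfl
  rw [h8]
  have h9 : (((((cotP r).map (algebraMap ℚ ℝ)).eval (ct (s * (al S T : ℝ) - k / 2)) : ℝ)) : ℂ) =
      ((cotP r).map (algebraMap ℚ ℂ)).eval ((ct (s * (al S T : ℝ) - k / 2) : ℝ) : ℂ) := by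
    rw [Polynomial.eval_map, Polynomial.eval_map]
    have h := Polynomial.hom_eval₂ (cotP r) (algebraMap ℚ ℝ) (algebraMap ℝ ℂ)
      (ct (s * (al S T : ℝ) - k / 2))
    rw [Complex.coe_algebraMap] at h
    rw [h]
    congr 1
  rw [hf]
  push_cast
  rw [h9]
  ring

end Pool.H42.PF
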